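import Pool.Agent.Q112.ED.Edge

/-!
# Problem MP_c82047_co: triple systems closed under edge operations

Edge operations (Berman, Idziak, Marković, McKenzie, Valeriote, Willard: finite algebras with few subpowers)
are the common generalisation of Maltsev operations (groups, quasigroups, ...) and of near unanimity operations.
If `H ⊆ X × Y × Z` is closed under componentwise edge operations and no `s` triples of `H` span at most `s + 3`
vertices, then `|H|² ≤ ⌊s/2⌋ (s - 1)² |X| |Y| |Z|`, so the conjecture holds with a power saving (`n ^ (3/2)`).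
-/

set_option autoImplicit false

open Finset

namespace Pool.Agent.Results.MP_c82047_co.EdgeOperations

/-- Edge operations: `t (y, y, x, x, ..., x) = t (y, x, y, x, ..., x) = x` and
`t (x, ..., x, y, x, ..., x) = x` if `y` is in the fourth or a later position. -/
def IsEdgeOperation {D : Type} {r : ℕ} (t : (Fin (r + 3) → D) → D) : Prop :=
  (∀ x y : D, t (fun i => if i.val = 0 ∨ i.val = 1 then y else x) = x) ∧
  (∀ x y : D, t (fun i => if i.val = 0 ∨ i.val = 2 then y else x) = x) ∧
  ∀ j : Fin (r + 3), 3 ≤ j.val → ∀ x y : D, t (fun i => if i = j then y else x) = x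

/-- The triple system `H ⊆ X × Y × Z` is closed under the operations `tX`, `tY`, `tZ`, applied
to the first, second and third coordinates of any `n` triples. -/
def Closed {X Y Z : Type} {n : ℕ} (tX : (Fin n → X) → X) (tY : (Fin n → Y) → Y)
    (tZ : (Fin n → Z) → Z) (H : Finset (X × Y × Z)) : Prop :=
  ∀ a : Fin n → X × Y × Z, (∀ l, a l ∈ H) →
    (tX fun l => (a l).1, tY fun l => (a l).2.1, tZ fun l => (a l).2.2) ∈ H

/-- The number of vertices spanned by a set of triples: the number of its first coordinates, plus the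
number of its second coordinates, plus the number of its third coordinates. -/
noncomputable def spanned {X Y Z : Type} (T : Finset (X × Y × Z)) : ℕ :=
  ((fun e : X × Y × Z => e.1) '' (T : Set (X × Y × Z))).ncard +
  ((fun e : X × Y × Z => e.2.1) '' (T : Set (X × Y × Z))).ncard +
  ((fun e : X × Y × Z => e.2.2) '' (T : Set (X × Y × Z))).ncard

/-- Two different triples have at most one vertex in common. -/
def Linear {X Y Z : Type} (H : Finset (X × Y × Z)) : Prop :=
  ∀ e ∈ H, ∀ e' ∈ H, (e.1 = e'.1 ∧ e.2.1 = e'.2.1) ∨ (e.1 = e'.1 ∧ e.2.2 = e'.2.2) ∨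
    (e.2.1 = e'.2.1 ∧ e.2.2 = e'.2.2) → e = e'

/-- The rows `A`, the columns `B` and the symbols `C` form a Latin square all of whose entries are triples
of the linear system `H`. -/
def IsLatinSquareIn {X Y Z : Type} (H : Finset (X × Y × Z)) (A : Finset X) (B : Finset Y)
    (C : Finset Z) : Prop :=
  A.card = B.card ∧ B.card = C.card ∧ (∀ a ∈ A, ∀ b ∈ B, ∃ c ∈ C, (a, b, c) ∈ H) ∧
    (∀ a ∈ A, ∀ c ∈ C, ∃ b ∈ B, (a, b, c) ∈ H) ∧ ∀ b ∈ B, ∀ c ∈ C, ∃ a ∈ A, (a, b, c) ∈ H

theorem result :
    -- (1) no `s` triples span at most `s + 3` vertices, `s ≥ 1` arbitrary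
    (∀ (s r : ℕ), 0 < s → ∀ (X Y Z : Type) [Fintype X] [Fintype Y] [Fintype Z]
      (tX : (Fin (r + 3) → X) → X) (tY : (Fin (r + 3) → Y) → Y) (tZ : (Fin (r + 3) → Z) → Z),
      IsEdgeOperation tX → IsEdgeOperation tY → IsEdgeOperation tZ →
      ∀ H : Finset (X × Y × Z), Closed tX tY tZ H →
      (∀ T : Finset (X × Y × Z), T ⊆ H → T.card = s → s + 3 < spanned T) →
      H.card ^ 2 ≤ (s - 1) ^ 2 * (s / 2) * (Fintype.card X * Fintype.card Y * Fintype.card Z)) ∧
    -- (2) linear systems whose Latin squares have order at most `N`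
    (∀ (N r : ℕ) (X Y Z : Type) [Fintype X] [Fintype Y] [Fintype Z]
      (tX : (Fin (r + 3) → X) → X) (tY : (Fin (r + 3) → Y) → Y) (tZ : (Fin (r + 3) → Z) → Z),
      IsEdgeOperation tX → IsEdgeOperation tY → IsEdgeOperation tZ →
      ∀ H : Finset (X × Y × Z), Closed tX tY tZ H → Linear H →
      (∀ A B C, IsLatinSquareIn H A B C → A.card ≤ N) →
      H.card ^ 2 ≤ N * (Fintype.card X * Fintype.card Y * Fintype.card Z)) ∧
    -- (3) the bound of (2) is attained
    (∀ (m N r : ℕ) (t : (Fin (r + 3) → Fin m) → Fin m), 0 < N → IsEdgeOperation t →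
      ∃ (t' : (Fin (r + 3) → Fin m × Fin m × ZMod N) → Fin m × Fin m × ZMod N)
        (H : Finset ((Fin m × Fin m × ZMod N) × (Fin m × Fin m × ZMod N) × (Fin m × Fin m × ZMod N))),
        IsEdgeOperation t' ∧ Closed t' t' t' H ∧ Linear H ∧
        (∀ A B C, IsLatinSquareIn H A B C → A.card ≤ N) ∧ H.card = m ^ 3 * N ^ 2) ∧
    -- (4) Maltsev operations and near unanimity operations give edge operations
    (∀ (D : Type) (p : D → D → D → D), (∀ x y, p x y y = x ∧ p y y x = x) →
      IsEdgeOperation (r := 0) fun a : Fin 3 → D => p (a 1) (a 0) (a 2)) ∧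
    (∀ (D : Type) (r : ℕ) (t : (Fin (r + 2) → D) → D),
      (∀ (l : Fin (r + 2)) (x y : D), t (Function.update (fun _ => x) l y) = x) →
      IsEdgeOperation (r := r) fun a : Fin (r + 3) → D => t fun l => a l.succ) := by
  classical
  refine ⟨?_, ?_, ?_, ?_, ?_⟩
  · intro s r hs X Y Z _ _ _ tX tY tZ hX hY hZ H hcl hsp
    refine Q112.ED.sparse hX hY hZ hcl hs fun T hT hTc => ?_
    have h := hsp T hT hTc
    unfold spanned at h
    rw [← coe_image, ← coe_image, ← coe_image, Set.ncard_coe_finset, Set.ncard_coe_finset,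
      Set.ncard_coe_finset] at h
    exact h
  · intro N r X Y Z _ _ _ tX tY tZ hX hY hZ H hcl hlin hN
    exact Q112.ED.linear hX hY hZ hcl hlin hN
  · intro m N r t hN ht
    haveI : NeZero N := ⟨hN.ne'⟩
    exact ⟨Q112.ED.exOp t, Q112.ED.exSys m N, Q112.ED.exOp_edge ht, Q112.ED.exSys_cl t,
      Q112.ED.exSys_lin m N, fun A B C h => Q112.ED.exSys_latin h, Q112.ED.exSys_card m N⟩
  · intro D p hp
    exact Q112.ED.edge_of_maltsev hp
  · intro D r t ht
    exact Q112.ED.edge_of_nu ht

end Pool.Agent.Results.MP_c82047_co.EdgeOperations
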