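import Pool.Agent.Q123.BES.Sparse

/-!
Problem MP_c82047_co (the Brown-Erdős-Sós conjecture for triple systems), for tripartite triple
systems that are closed under componentwise near unanimity operations.
-/

set_option autoImplicit false

open Finset

namespace Pool.Agent.Results.MP_c82047_co.NearUnanimity

/-- `t` is a near unanimity operation: `t (x, ..., x, y, x, ..., x) = x` for every position of `y`.
For `r = 3` these are the majority operations. -/
def IsNearUnanimity {D : Type} {r : ℕ} (t : (Fin r → D) → D) : Prop :=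
  ∀ (l : Fin r) (x y : D), t (Function.update (fun _ => x) l y) = x

/-- The triple system `H ⊆ X × Y × Z` is closed under the operations `tX`, `tY`, `tZ`, applied
to the first, second and third coordinates of any `r` triples. -/
def Closed {X Y Z : Type} {r : ℕ} (tX : (Fin r → X) → X) (tY : (Fin r → Y) → Y)
    (tZ : (Fin r → Z) → Z) (H : Finset (X × Y × Z)) : Prop :=
  ∀ a : Fin r → X × Y × Z, (∀ l, a l ∈ H) →
    (tX fun l => (a l).1, tY fun l => (a l).2.1, tZ fun l => (a l).2.2) ∈ H

/-- The number of vertices spanned by a set of triples: the number of its first coordinates, plus the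
number of its second coordinates, plus the number of its third coordinates. -/
noncomputable def spanned {X Y Z : Type} (T : Finset (X × Y × Z)) : ℕ :=
  ((fun e : X × Y × Z => e.1) '' (T : Set (X × Y × Z))).ncard +
  ((fun e : X × Y × Z => e.2.1) '' (T : Set (X × Y × Z))).ncard +
  ((fun e : X × Y × Z => e.2.2) '' (T : Set (X × Y × Z))).ncard

/-- Two different triples have at most one vertex in common. -/
def Linear {X Y Z : Type} (H : Finset (X × Y × Z)) : Prop :=
  ∀ e ∈ H, ∀ e' ∈ H, (e.1 = e'.1 ∧ e.2.1 = e'.2.1) ∨ (e.1 = e'.1 ∧ e.2.2 = e'.2.2) ∨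
    (e.2.1 = e'.2.1 ∧ e.2.2 = e'.2.2) → e = e'

theorem result :
    -- (1) no `s` triples span at most `s + 3` vertices, `s ≥ 1` arbitrary
    (∀ (s r : ℕ), 0 < s → 0 < r → ∀ (X Y Z : Type) [Fintype X] [Fintype Y] [Fintype Z]
      (tX : (Fin r → X) → X) (tY : (Fin r → Y) → Y) (tZ : (Fin r → Z) → Z),
      IsNearUnanimity tX → IsNearUnanimity tY → IsNearUnanimity tZ →
      ∀ H : Finset (X × Y × Z), Closed tX tY tZ H →
      (∀ T : Finset (X × Y × Z), T ⊆ H → T.card = s → s + 3 < spanned T) →
      H.card ^ 2 ≤ (s - 1) ^ 2 * (Fintype.card X * Fintype.card Y * Fintype.card Z)) ∧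
    -- (2) linear systems
    (∀ (r : ℕ), 0 < r → ∀ (X Y Z : Type) [Fintype X] [Fintype Y] [Fintype Z]
      (tX : (Fin r → X) → X) (tY : (Fin r → Y) → Y) (tZ : (Fin r → Z) → Z),
      IsNearUnanimity tX → IsNearUnanimity tY → IsNearUnanimity tZ →
      ∀ H : Finset (X × Y × Z), Closed tX tY tZ H → Linear H →
      H.card ^ 2 ≤ Fintype.card X * Fintype.card Y * Fintype.card Z) ∧
    -- (3) the bound of (2) is attained
    (∀ (m r : ℕ) (t : (Fin r → Fin m) → Fin m), IsNearUnanimity t →
      ∃ (t' : (Fin r → Fin m × Fin m) → Fin m × Fin m)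
        (H : Finset ((Fin m × Fin m) × (Fin m × Fin m) × (Fin m × Fin m))),
        IsNearUnanimity t' ∧ Closed t' t' t' H ∧ Linear H ∧ H.card = m ^ 3) := by
  classical
  refine ⟨?_, ?_, ?_⟩
  · intro s r hs hr X Y Z _ _ _ tX tY tZ hX hY hZ H hcl hsp
    refine Q123.BES.sparse hs hr hX hY hZ hcl fun T hT hTc => ?_
    have h := hsp T hT hTc
    unfold spanned at h
    rw [← coe_image, ← coe_image, ← coe_image, Set.ncard_coe_finset, Set.ncard_coe_finset,
      Set.ncard_coe_finset] at h
    exact h
  · intro r hr X Y Z _ _ _ tX tY tZ hX hY hZ H hcl hlin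
    exact Q123.BES.linear hr hX hY hZ hcl hlin
  · intro m r t ht
    exact ⟨Q123.BES.sqOp t, Q123.BES.prodSys m, Q123.BES.sqOp_nu ht, Q123.BES.prodSys_cl t,
      Q123.BES.prodSys_lin m, Q123.BES.prodSys_card m⟩

end Pool.Agent.Results.MP_c82047_co.NearUnanimity
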