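import Pool.Agent.Q138.PS.UQ
import Pool.Agent.Results.MP_c82047_co.AlmostAllOrders

/-!
# Triple systems and groups of almost all orders `⌊α P(i)⌋`

There are `K(δ)`, `C(δ, k)` and `M(1), M(2), ...` such that the following holds. Let `q ≥ 2`. Outside a set of real numbers of
Hausdorff dimension at most `q / (q + 1 / (q 2 ^ (q - 1)))` (that is `8 / 9` for `q = 2`) every `α > 0` has for each `j` an `η > 0`
such that for all large `N`, ALL `s ≤ N ^ η` and ALL integral polynomials `P` of degree `q` with positive leading coefficient and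
coefficients of size at most `N ^ η`, for all but `N / j` of the `i ≤ N`, with `m = ⌊α P(i)⌋` and `B = (s log m) ^ M(j)`: let a
finite group of order at most `s m` act by automorphisms on a triple system `H`, all orbits on the vertices having `m` elements or
one element; let `w` be the number of vertices in orbits with `m` elements, `δ > 0`, `k ≥ K(δ)` and `m ≥ C(δ, k) B`. If some such
vertex lies in more than `C(δ, k) (B w / m) ^ (1 + δ)` triples, or more than `w` times as many triples contain such a vertex, then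
some `k` vertices span at least `k + ⌊k / K(δ)⌋` triples.
-/

set_option autoImplicit false

namespace Pool.Agent.Results.MP_c82047_co.OrdersAlongRealMultiples

open Finset Filter Topology
open Pool.Agent.Q138.PS
open Pool.Agent.Results.MP_c82047_co.AlmostAllOrders (SparseTriple)

open Classical in
/-- the number of the `1 ≤ i ≤ N` for which `SparseTriple K C m s ((s log m) ^ M)` fails for `m = ⌊α P(i)⌋` -/
noncomputable def bad (K : ℝ → ℕ) (C : ℝ → ℕ → ℕ) (M s : ℕ) (α : ℝ) (P : Polynomial ℤ) (N : ℕ) : ℕ :=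
  ((Icc 1 N).filter fun i : ℕ => ¬ SparseTriple K C ⌊α * ((P.eval (i : ℤ) : ℤ) : ℝ)⌋₊ s
    ((s * Real.log (⌊α * ((P.eval (i : ℤ) : ℤ) : ℝ)⌋₊ : ℕ)) ^ M)).card

theorem bad_eq (K : ℝ → ℕ) (C : ℝ → ℕ → ℕ) (M s : ℕ) (α : ℝ) (P : Polynomial ℤ) (N : ℕ) :
    (bad K C M s α P N : ℝ) = cnP (XS (SparseTriple K C) M s) α P N := by
  classical
  unfold bad cnP cn XS
  refine congrArg _ (congrArg _ ?_)
  ext n
  simp only [mem_filter]

/-- **Theorem.** -/
theorem result : ∃ (K : ℝ → ℕ) (C : ℝ → ℕ → ℕ), (∀ δ : ℝ, 0 < δ → 1 ≤ K δ) ∧ ∃ M : ℕ → ℕ, ∀ q : ℕ, 2 ≤ q →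
    ∃ E : Set ℝ, dimH E ≤ ENNReal.ofReal (q / (q + 1 / ((q : ℝ) * 2 ^ (q - 1)))) ∧ ∀ α : ℝ, 0 < α → α ∉ E →
    ∀ j : ℕ, 1 ≤ j → ∃ η : ℝ, 0 < η ∧ ∀ᶠ N : ℕ in atTop, ∀ s : ℕ, 1 ≤ s → (s : ℝ) ≤ (N : ℝ) ^ η →
    ∀ P : Polynomial ℤ, P.natDegree = q → 0 < P.leadingCoeff → (∀ k, |((P.coeff k : ℤ) : ℝ)| ≤ (N : ℝ) ^ η) →
    (j : ℝ) * bad K C (M j) s α P N ≤ N := by
  obtain ⟨K, C, hK, hfew⟩ := Pool.Agent.Results.MP_c82047_co.AlmostAllOrders.result
  obtain ⟨M, h⟩ := exc_family (SparseTriple K C) (by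
    intro m s B B' hB hBB' h1 V G _ _ _ _ _ hG horb H hH haut δ hδ k hk hCB w hw hbig
    refine h1 V G hG horb H hH haut δ hδ k hk (le_trans (by gcongr) hCB) w hw ?_
    have hm : (0 : ℝ) ≤ m := Nat.cast_nonneg m
    refine hbig.imp (fun h2 => lt_of_le_of_lt (by gcongr) h2) ?_
    rintro ⟨v, h2, h3⟩
    exact ⟨v, h2, lt_of_le_of_lt (by gcongr) h3⟩) hfew
  refine ⟨K, C, hK, M, fun q hq => ?_⟩
  obtain ⟨E, hE, hg⟩ := h q hq
  refine ⟨E, hE, fun α hα hαE j hj => ?_⟩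
  obtain ⟨η, hη, h1⟩ := hg α hα hαE j hj
  refine ⟨η, hη, ?_⟩
  filter_upwards [h1] with N hN
  intro s hs1 hs P hdeg hlead hco
  rw [bad_eq]
  exact hN s hs1 hs P hdeg hlead hco

end Pool.Agent.Results.MP_c82047_co.OrdersAlongRealMultiples
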