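import Pool.Agent.Q112.WL.Any

/-!
# Problem MP_c82047_co: the Brown-Erdős-Sós conjecture for triple systems with a weak near unanimity
# polymorphism, with a power saving for linear systems

Let `H ⊆ X × Y × Z` be nonempty and closed under componentwise idempotent operations of the same arity
`≥ 2`, at least one of which is a weak near unanimity operation.  If `H` is linear then `H` contains the
addition table of an abelian group `G` with `|H|² ≤ |G| |X| |Y| |Z|`, and this is optimal.  So if moreover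
no `s` triples span at most `s + 3` vertices, then `|H|² ≤ ⌊√(s - 1)⌋ |X| |Y| |Z|`, which is a power saving
in the conjecture.  In general `|H| = o(n²)`.
-/

set_option autoImplicit false

open Finset

namespace Pool.Agent.Results.MP_c82047_co.WeakNearUnanimityPower

/-- `w (x, ..., x) = x`. -/
def IsIdempotent {D : Type} {r : ℕ} (w : (Fin r → D) → D) : Prop := ∀ x : D, w (fun _ => x) = x

/-- `w` is a weak near unanimity operation: it is idempotent, and `w (x, ..., x, y, x, ..., x)` does not
depend on the position of `y`. -/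
def IsWeakNearUnanimity {D : Type} {r : ℕ} (w : (Fin r → D) → D) : Prop :=
  IsIdempotent w ∧ ∀ (i j : Fin r) (x y : D),
    w (Function.update (fun _ => x) i y) = w (Function.update (fun _ => x) j y)

/-- The triple system `H ⊆ X × Y × Z` is closed under the operations `wX`, `wY`, `wZ`, applied
to the first, second and third coordinates of any `r` triples. -/
def Closed {X Y Z : Type} {r : ℕ} (wX : (Fin r → X) → X) (wY : (Fin r → Y) → Y)
    (wZ : (Fin r → Z) → Z) (H : Finset (X × Y × Z)) : Prop :=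
  ∀ a : Fin r → X × Y × Z, (∀ l, a l ∈ H) →
    (wX fun l => (a l).1, wY fun l => (a l).2.1, wZ fun l => (a l).2.2) ∈ H

/-- Two different triples have at most one vertex in common. -/
def Linear {X Y Z : Type} (H : Finset (X × Y × Z)) : Prop :=
  ∀ e ∈ H, ∀ e' ∈ H, (e.1 = e'.1 ∧ e.2.1 = e'.2.1) ∨ (e.1 = e'.1 ∧ e.2.2 = e'.2.2) ∨
    (e.2.1 = e'.2.1 ∧ e.2.2 = e'.2.2) → e = e'

/-- `H` contains the addition table of the abelian group `G`: the triples `(a g, b h, c (g + h))` for
injective maps `a`, `b`, `c` from `G` to the vertex classes. -/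
def HasTable {X Y Z : Type} (H : Finset (X × Y × Z)) (G : Type) [AddCommGroup G] : Prop :=
  ∃ (a : G → X) (b : G → Y) (c : G → Z), Function.Injective a ∧ Function.Injective b ∧
    Function.Injective c ∧ ∀ g h, (a g, b h, c (g + h)) ∈ H

/-- The number of vertices spanned by a set of triples: the number of its first coordinates, plus the
number of its second coordinates, plus the number of its third coordinates. -/
noncomputable def spanned {X Y Z : Type} (T : Finset (X × Y × Z)) : ℕ :=
  ((fun e : X × Y × Z => e.1) '' (T : Set (X × Y × Z))).ncard +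
  ((fun e : X × Y × Z => e.2.1) '' (T : Set (X × Y × Z))).ncard +
  ((fun e : X × Y × Z => e.2.2) '' (T : Set (X × Y × Z))).ncard

/-- No `s` triples of `H` span at most `s + 3` vertices. -/
def Sparse {X Y Z : Type} (s : ℕ) (H : Finset (X × Y × Z)) : Prop :=
  ∀ T : Finset (X × Y × Z), T ⊆ H → T.card = s → s + 3 < spanned T

theorem result :
    -- (1) linear systems contain the addition table of a large abelian group
    (∀ r : ℕ, 2 ≤ r → ∀ (X Y Z : Type) [Fintype X] [Fintype Y] [Fintype Z]
      (wX : (Fin r → X) → X) (wY : (Fin r → Y) → Y) (wZ : (Fin r → Z) → Z),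
      IsIdempotent wX → IsIdempotent wY → IsWeakNearUnanimity wZ →
      ∀ H : Finset (X × Y × Z), H.Nonempty → Closed wX wY wZ H → Linear H →
      ∃ (G : Type) (_ : AddCommGroup G) (_ : Fintype G), HasTable H G ∧
        H.card ^ 2 ≤ Fintype.card G * (Fintype.card X * Fintype.card Y * Fintype.card Z)) ∧
    -- (2) the bound of (1) is attained
    (∀ (m N : ℕ), 0 < m → 0 < N → ∃ (r : ℕ) (V : Type) (_ : Fintype V) (w : (Fin r → V) → V)
      (H : Finset (V × V × V)), 2 ≤ r ∧ Fintype.card V = m ^ 2 * N ∧ IsWeakNearUnanimity w ∧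
        Closed w w w H ∧ Linear H ∧ H.card = m ^ 3 * N ^ 2 ∧
        ∀ (G : Type) [AddCommGroup G] [Fintype G], HasTable H G → Fintype.card G ≤ N) ∧
    -- (3) linear systems without `s` triples on at most `s + 3` vertices
    (∀ (s r : ℕ), 0 < s → 2 ≤ r → ∀ (X Y Z : Type) [Fintype X] [Fintype Y] [Fintype Z]
      (wX : (Fin r → X) → X) (wY : (Fin r → Y) → Y) (wZ : (Fin r → Z) → Z),
      IsIdempotent wX → IsIdempotent wY → IsWeakNearUnanimity wZ →
      ∀ H : Finset (X × Y × Z), Closed wX wY wZ H → Linear H → Sparse s H →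
      H.card ^ 2 ≤ Nat.sqrt (s - 1) * (Fintype.card X * Fintype.card Y * Fintype.card Z)) ∧
    -- (4) the conjecture
    (∀ (s : ℕ), 0 < s → ∀ ε : ℝ, 0 < ε → ∃ n₀ : ℕ, ∀ n : ℕ, n₀ ≤ n →
      ∀ (X Y Z : Type) [Fintype X] [Fintype Y] [Fintype Z],
      Fintype.card X ≤ n → Fintype.card Y ≤ n → Fintype.card Z ≤ n →
      ∀ (r : ℕ), 2 ≤ r → ∀ (wX : (Fin r → X) → X) (wY : (Fin r → Y) → Y) (wZ : (Fin r → Z) → Z),
      IsIdempotent wX → IsIdempotent wY → IsWeakNearUnanimity wZ →
      ∀ H : Finset (X × Y × Z), Closed wX wY wZ H → Sparse s H → (H.card : ℝ) ≤ ε * (n : ℝ) ^ 2) := by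
  classical
  have hSp : ∀ {X Y Z : Type} [DecidableEq X] [DecidableEq Y] [DecidableEq Z] {s : ℕ}
      {H : Finset (X × Y × Z)}, Sparse s H → Q112.WN.Sparse s H := by
    intro X Y Z _ _ _ s H hsp T hT hTc
    have h := hsp T hT hTc
    unfold spanned at h
    rw [← coe_image, ← coe_image, ← coe_image, Set.ncard_coe_finset, Set.ncard_coe_finset,
      Set.ncard_coe_finset] at h
    exact h
  refine ⟨?_, ?_, ?_, ?_⟩
  · intro r hr X Y Z _ _ _ wX wY wZ hX hY hZ H hne hcl hl
    exact Q112.WL.group_main' (by rw [Fintype.card_fin]; exact hr) hX hY hZ.1 hZ.2 hcl hl hne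
  · intro m N hm hN
    have : NeZero N := ⟨hN.ne'⟩
    have : NeZero m := ⟨hm.ne'⟩
    refine ⟨N + 1, Fin m × Fin m × ZMod N, inferInstance, Q112.WL.xOp, Q112.ED.exSys m N, by omega, ?_,
      ⟨Q112.WL.xOp_idem, Q112.WL.xOp_wnu hN⟩, Q112.WL.xOp_cl, Q112.ED.exSys_lin m N,
      Q112.ED.exSys_card m N, ?_⟩
    · simp only [Fintype.card_prod, Fintype.card_fin, ZMod.card]
      ring
    · intro G _ _ hG
      obtain ⟨A, B, C, hABC, hA⟩ := Q112.WL.Tab.latin hG
      rw [← hA]
      exact Q112.ED.exSys_latin hABC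
  · intro s r hs hr X Y Z _ _ _ wX wY wZ hX hY hZ H hcl hl hsp
    exact Q112.WL.sparse (by rw [Fintype.card_fin]; exact hr) hX hY hZ.1 hZ.2 hcl hl hs (hSp hsp)
  · intro s hs ε hε
    obtain ⟨n₀, hn₀⟩ := Q112.WN.main s hs ε hε
    refine ⟨n₀, ?_⟩
    intro n hn X Y Z _ _ _ hXn hYn hZn r hr wX wY wZ hX hY hZ H hcl hsp
    exact hn₀ n hn X Y Z hXn hYn hZn r hr wX wY wZ hX hY hZ H hcl (hSp hsp)

end Pool.Agent.Results.MP_c82047_co.WeakNearUnanimityPower
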